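import Pool.Agent.helper43.DHB.SpecB

/-!
# Project d2 (MP_5823cb_al), row bGRD: rounding to the grid and sorting (helper3)
-/

set_option autoImplicit false

open Filter Topology MeasureTheory
open scoped commutatorElement

namespace Pool.Agent.helper90.DH

open Pool.Agent.helper64.D2

theorem bGRD_rnd (S : ℕ) (x : ℝ) (hx : x ∈ Set.Icc (1 / 6 : ℝ) (5 / 6)) :
    ⌊(2 : ℝ) ^ (S + 1) * x⌋₊ < 2 ^ (S + 1) + 1 ∧
    |max (1 / 6 : ℝ) (min (5 / 6) ((⌊(2 : ℝ) ^ (S + 1) * x⌋₊ : ℝ) / 2 ^ (S + 1))) - x| ≤ 1 / 2 ^ (S + 1) := by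
  obtain ⟨hx1, hx2⟩ := hx
  have h2 : (0 : ℝ) < 2 ^ (S + 1) := by positivity
  have hnn : 0 ≤ (2 : ℝ) ^ (S + 1) * x := mul_nonneg h2.le (by linarith)
  have h3 : (⌊(2 : ℝ) ^ (S + 1) * x⌋₊ : ℝ) ≤ 2 ^ (S + 1) * x := Nat.floor_le hnn
  have h4 : (2 : ℝ) ^ (S + 1) * x < ⌊(2 : ℝ) ^ (S + 1) * x⌋₊ + 1 := Nat.lt_floor_add_one _
  constructor
  · have h5 : (⌊(2 : ℝ) ^ (S + 1) * x⌋₊ : ℝ) < ((2 ^ (S + 1) + 1 : ℕ) : ℝ) := by
      push_cast
      nlinarith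
    exact_mod_cast h5
  · set g : ℝ := (⌊(2 : ℝ) ^ (S + 1) * x⌋₊ : ℝ) / 2 ^ (S + 1) with hg
    have h6 : g ≤ x := by
      rw [hg, div_le_iff₀ h2]
      linarith
    have h7 : x < g + 1 / 2 ^ (S + 1) := by
      rw [hg, ← add_div, lt_div_iff₀ h2]
      linarith
    rw [min_eq_right (by linarith : g ≤ 5 / 6)]
    have h8 : (0 : ℝ) < 1 / 2 ^ (S + 1) := by positivity
    rcases le_total (1 / 6 : ℝ) g with h9 | h9
    · rw [max_eq_right h9, abs_le]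
      constructor <;> linarith
    · rw [max_eq_left h9, abs_le]
      constructor <;> linarith

theorem bGRD : bGRD_stmt := by
  classical
  intro q S k C th hC hneg
  unfold SPRf at hneg
  push Not at hneg
  obtain ⟨p, E, hp, hE, hPI, hcard⟩ := hneg
  let σ : Equiv.Perm (Fin k) := Tuple.sort (fun a : Fin k => p a)
  have hσ : Monotone (fun a : Fin k => p (σ a)) := Tuple.monotone_sort (fun a : Fin k => p a)
  have hpp : ∀ a : Fin k, p (σ a) ∈ Set.Icc (1 / 6 : ℝ) (5 / 6) := fun a => hp _ (σ a).2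
  let z : Cfg q S k := (fun a => ⟨⌊(2 : ℝ) ^ (S + 1) * p (σ a)⌋₊, (bGRD_rnd S _ (hpp a)).1⟩,
    fun i a => if h : ∃ b : Fin k, ((i : ℕ), ((σ a : Fin k) : ℕ), ((σ b : Fin k) : ℕ)) ∈ E then some h.choose else none)
  have hz1 : ∀ a : Fin k, cpt z a = max (1 / 6) (min (5 / 6) ((⌊(2 : ℝ) ^ (S + 1) * p (σ a)⌋₊ : ℝ) / 2 ^ (S + 1))) := by
    intro a
    unfold cpt
    rw [dif_pos a.2]
  have hz1' : ∀ a : Fin k, |cpt z a - p (σ a)| ≤ 1 / 2 ^ (S + 1) := by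
    intro a
    rw [hz1]
    exact (bGRD_rnd S _ (hpp a)).2
  have hz2 : ∀ (i : Fin q) (a b : Fin k), z.2 i a = some b ↔ ((i : ℕ), ((σ a : Fin k) : ℕ), ((σ b : Fin k) : ℕ)) ∈ E := by
    intro i a b
    have huniq : ∀ b₁ b₂ : Fin k, ((i : ℕ), ((σ a : Fin k) : ℕ), ((σ b₁ : Fin k) : ℕ)) ∈ E → ((i : ℕ), ((σ a : Fin k) : ℕ), ((σ b₂ : Fin k) : ℕ)) ∈ E → b₁ = b₂ := by
      intro b₁ b₂ h1 h2
      have h3 := hPI _ h1 _ h2 rfl (Or.inl rfl)
      have h4 : ((σ b₁ : Fin k) : ℕ) = ((σ b₂ : Fin k) : ℕ) := congrArg (fun e : ℕ × ℕ × ℕ => e.2.2) h3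
      exact σ.injective (Fin.ext h4)
    show (if h : ∃ b : Fin k, ((i : ℕ), ((σ a : Fin k) : ℕ), ((σ b : Fin k) : ℕ)) ∈ E then some h.choose else none) = some b ↔ _
    constructor
    · intro h
      split_ifs at h with h1
      have h2 : h1.choose = b := Option.some.inj h
      rw [← h2]
      exact h1.choose_spec
    · intro h
      have h1 : ∃ b : Fin k, ((i : ℕ), ((σ a : Fin k) : ℕ), ((σ b : Fin k) : ℕ)) ∈ E := ⟨b, h⟩
      rw [dif_pos h1]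
      exact congrArg some (huniq _ _ h1.choose_spec h)
  have hced : ∀ e ∈ ced z, ∃ (i : Fin q) (a b : Fin k), e = ((i : ℕ), (a : ℕ), (b : ℕ)) ∧ ((i : ℕ), ((σ a : Fin k) : ℕ), ((σ b : Fin k) : ℕ)) ∈ E := by
    intro e he
    unfold ced at he
    rw [Finset.mem_image] at he
    obtain ⟨⟨i, a, b⟩, h1, h2⟩ := he
    rw [Finset.mem_filter] at h1
    exact ⟨i, a, b, h2.symm, (hz2 i a b).1 h1.2⟩
  refine ⟨z, ?_, ?_, ?_, ?_⟩
  · intro a b hab
    by_cases hb : b < k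
    · have ha : a < k := lt_of_le_of_lt hab hb
      have e1 := hz1 ⟨a, ha⟩
      have e2 := hz1 ⟨b, hb⟩
      simp only at e1 e2
      rw [e1, e2]
      have h1 : p (σ ⟨a, ha⟩) ≤ p (σ ⟨b, hb⟩) := hσ (by exact hab : (⟨a, ha⟩ : Fin k) ≤ ⟨b, hb⟩)
      have h2 : (⌊(2 : ℝ) ^ (S + 1) * p (σ ⟨a, ha⟩)⌋₊ : ℝ) ≤ ⌊(2 : ℝ) ^ (S + 1) * p (σ ⟨b, hb⟩)⌋₊ := by
        exact_mod_cast Nat.floor_le_floor (mul_le_mul_of_nonneg_left h1 (by positivity))
      exact max_le_max le_rfl (min_le_min le_rfl (div_le_div_of_nonneg_right h2 (by positivity)))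
    · have e2 : cpt z b = 5 / 6 := by
        unfold cpt
        rw [dif_neg hb]
      rw [e2]
      unfold cpt
      split_ifs with ha
      · exact max_le (by norm_num) (min_le_left _ _)
      · exact le_rfl
  · intro e he e' he' h1 h2
    obtain ⟨i, a, b, rfl, h3⟩ := hced e he
    obtain ⟨i', a', b', rfl, h4⟩ := hced e' he'
    simp only at h1 h2
    have h5 : ((i : ℕ), ((σ a : Fin k) : ℕ), ((σ b : Fin k) : ℕ)) = ((i' : ℕ), ((σ a' : Fin k) : ℕ), ((σ b' : Fin k) : ℕ)) := by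
      refine hPI _ h3 _ h4 h1 ?_
      rcases h2 with h2 | h2
      · left
        show ((σ a : Fin k) : ℕ) = ((σ a' : Fin k) : ℕ)
        rw [Fin.ext h2]
      · right
        show ((σ b : Fin k) : ℕ) = ((σ b' : Fin k) : ℕ)
        rw [Fin.ext h2]
    have h6 : ((σ a : Fin k) : ℕ) = ((σ a' : Fin k) : ℕ) := congrArg (fun e : ℕ × ℕ × ℕ => e.2.1) h5
    have h7 : ((σ b : Fin k) : ℕ) = ((σ b' : Fin k) : ℕ) := congrArg (fun e : ℕ × ℕ × ℕ => e.2.2) h5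
    have h8 : a = a' := σ.injective (Fin.ext h6)
    have h9 : b = b' := σ.injective (Fin.ext h7)
    rw [h1, h8, h9]
  · have h1 : (ced z).card = ((Finset.univ : Finset (Fin q × Fin k × Fin k)).filter (fun e => z.2 e.1 e.2.1 = some e.2.2)).card := by
      unfold ced
      refine Finset.card_image_of_injective _ ?_
      rintro ⟨i, a, b⟩ ⟨i', a', b'⟩ h
      simp only [Prod.mk.injEq] at h
      obtain ⟨h1, h2, h3⟩ := h
      rw [Fin.ext h1, Fin.ext h2, Fin.ext h3]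
    have h2 : E ⊆ ((Finset.univ : Finset (Fin q × Fin k × Fin k)).filter (fun e => z.2 e.1 e.2.1 = some e.2.2)).image
        (fun e => ((e.1 : ℕ), ((σ e.2.1 : Fin k) : ℕ), ((σ e.2.2 : Fin k) : ℕ))) := by
      rintro ⟨i, a, b⟩ he
      obtain ⟨hi, ha, hb, -⟩ := hE _ he
      simp only at hi ha hb
      rw [Finset.mem_image]
      have e1 : σ (σ.symm ⟨a, ha⟩) = ⟨a, ha⟩ := σ.apply_symm_apply _
      have e2 : σ (σ.symm ⟨b, hb⟩) = ⟨b, hb⟩ := σ.apply_symm_apply _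
      refine ⟨(⟨i, hi⟩, σ.symm ⟨a, ha⟩, σ.symm ⟨b, hb⟩), ?_, ?_⟩
      · rw [Finset.mem_filter]
        refine ⟨Finset.mem_univ _, ?_⟩
        rw [hz2]
        simp only [e1, e2]
        exact he
      · simp only [e1, e2]
    have h3 : E.card ≤ (ced z).card := by
      rw [h1]
      exact (Finset.card_le_card h2).trans Finset.card_image_le
    exact lt_of_lt_of_le hcard (by exact_mod_cast h3)
  · intro e he
    obtain ⟨i, a, b, rfl, h3⟩ := hced e he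
    obtain ⟨hi, -, -, h4⟩ := hE _ h3
    simp only at hi h4 ⊢
    have h5 := hC i hi (cpt z a) (p (σ a))
    have h6 := hz1' a
    have h7 := hz1' b
    have h8 : (1 : ℝ) / 2 ^ (S + 1) = (1 / 2) * (1 / 2 ^ S) := by
      rw [pow_succ]
      ring
    have h9 : (8 : ℝ) / 2 ^ S = 8 * (1 / 2 ^ S) := by ring
    have h10 : (10 : ℝ) / 2 ^ S = 10 * (1 / 2 ^ S) := by ring
    have h11 : (0 : ℝ) < 1 / 2 ^ S := by positivity
    rw [h8] at h6 h7
    rw [h9] at h4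
    rw [h10]
    have h12 : C i (cpt z a) - cpt z b = (C i (cpt z a) - C i (p (σ a))) + (C i (p (σ a)) - p (σ b)) + -(cpt z b - p (σ b)) := by ring
    rw [h12]
    refine (abs_add_three _ _ _).trans ?_
    rw [abs_neg]
    linarith

end Pool.Agent.helper90.DH
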